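import Pool.Agent.Helper89.TT.Basic

set_option autoImplicit false

open Finset

namespace Pool.Agent.Helper89.TT

/-- the gcd of `P` and `Q` is small -/
theorem ll_gcd {p p' s s' G P Q : ℕ} (hp : 0 < p) (h : Rel p p' s s' G P Q) :
    1 ≤ Nat.gcd P Q ∧ Nat.gcd P Q ≤ 2 * G := by
  obtain ⟨hP, hQ, x, x', hx, hx', e1, e2, hg⟩ := h
  have g1 : 1 ≤ Nat.gcd P Q := Nat.gcd_pos_of_pos_left _ hP
  refine ⟨g1, ?_⟩
  have d1 : (Nat.gcd P Q) ^ 2 ∣ s * P ^ 2 :=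
    Dvd.dvd.mul_left (pow_dvd_pow_of_dvd (Nat.gcd_dvd_left P Q) 2) s
  have d2 : (Nat.gcd P Q) ^ 2 ∣ s' * Q ^ 2 :=
    Dvd.dvd.mul_left (pow_dvd_pow_of_dvd (Nat.gcd_dvd_right P Q) 2) s'
  have d3 : (Nat.gcd P Q) ^ 2 ∣ 2 * (p * x) := by
    have h3 : 2 * (p * x) = s * P ^ 2 + s' * Q ^ 2 := by omega
    rw [h3]; exact dvd_add d1 d2
  have d4 : (Nat.gcd P Q) ^ 2 ∣ 2 * (p' * x') := by
    have h3 : s * P ^ 2 = s' * Q ^ 2 + 2 * (p' * x') := by omega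
    rw [h3] at d1
    exact (Nat.dvd_add_right d2).1 d1
  have d5 : (Nat.gcd P Q) ^ 2 ∣ 2 * Nat.gcd (p * x) (p' * x') := by
    rw [← Nat.gcd_mul_left]; exact Nat.dvd_gcd d3 d4
  have gp : 0 < Nat.gcd (p * x) (p' * x') := Nat.gcd_pos_of_pos_left _ (Nat.mul_pos hp hx)
  have h6 : (Nat.gcd P Q) ^ 2 ≤ 2 * Nat.gcd (p * x) (p' * x') := Nat.le_of_dvd (by omega) d5
  have h7 : Nat.gcd P Q ≤ (Nat.gcd P Q) ^ 2 := by
    rw [pow_two]; exact Nat.le_mul_of_pos_left _ g1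
  omega

/-- slope and gcd determine the pair -/
theorem ll_eq {a b c d : ℕ} (ha : 0 < a) (hc : 0 < c) (h : a * d = c * b)
    (hg : Nat.gcd a b = Nat.gcd c d) : a = c ∧ b = d := by
  obtain ⟨g, a', b', hg0, hco, rfl, rfl⟩ := Nat.exists_coprime' (m := a) (n := b)
    (Nat.gcd_pos_of_pos_left _ ha)
  obtain ⟨g', c', d', hg0', hco', rfl, rfl⟩ := Nat.exists_coprime' (m := c) (n := d)
    (Nat.gcd_pos_of_pos_left _ hc)
  rw [Nat.gcd_mul_right, Nat.gcd_mul_right, hco.gcd_eq_one, hco'.gcd_eq_one, one_mul, one_mul] at hg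
  subst hg
  have h2 : a' * d' = c' * b' := by
    have h3 : (g * g) * (a' * d') = (g * g) * (c' * b') := by
      calc (g * g) * (a' * d') = a' * g * (d' * g) := by ring
        _ = c' * g * (b' * g) := h
        _ = (g * g) * (c' * b') := by ring
    exact Nat.eq_of_mul_eq_mul_left (Nat.mul_pos hg0 hg0) h3
  have h4 : a' ∣ c' := hco.dvd_of_dvd_mul_right (Dvd.intro _ h2)
  have h5 : c' ∣ a' := hco'.dvd_of_dvd_mul_right (Dvd.intro _ h2.symm)
  have h6 : a' = c' := Nat.dvd_antisymm h4 h5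
  subst h6
  have ha' : 0 < a' := Nat.pos_of_mul_pos_right ha
  have h7 : d' = b' := Nat.eq_of_mul_eq_mul_left ha' h2
  subst h7
  exact ⟨rfl, rfl⟩

/-- slopes are below `S` -/
theorem ll_slope {S p p' s s' G P Q : ℕ} (hp' : 0 < p') (hsS : s ≤ S) (hs : 1 ≤ s) (hs' : 1 ≤ s')
    (h : Rel p p' s s' G P Q) : Q < S * P := by
  obtain ⟨hP, hQ, x, x', hx, hx', e1, e2, hg⟩ := h
  have h0 : 0 < p' * x' := Nat.mul_pos hp' hx'
  have h1 : s' * Q ^ 2 < s * P ^ 2 := by omega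
  have h2 : Q ^ 2 ≤ s' * Q ^ 2 := Nat.le_mul_of_pos_left _ hs'
  have h3 : s * P ^ 2 ≤ (S * P) ^ 2 := by
    rw [mul_pow]
    apply Nat.mul_le_mul_right
    calc s ≤ S := hsS
      _ ≤ S ^ 2 := by rw [pow_two]; exact Nat.le_mul_of_pos_left _ (by omega)
  exact lt_of_pow_lt_pow_left₀ 2 (Nat.zero_le _) (by omega)

/-- STEP A: one class -/
theorem ll_classA {S G W R p p' s s' : ℕ} (hsS : s ≤ S) (hs : 1 ≤ s) (hs' : 1 ≤ s') (hp : 0 < p)
    (hp' : 0 < p') (F : Finset (ℕ × ℕ))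
    (hF : ∀ t ∈ F, Rel p p' s s' G t.1 t.2 ∧ s * t.1 ^ 2 ≤ 2 * W)
    (hsep : ∀ t ∈ F, ∀ u ∈ F, (t.1 : ℤ) * u.2 - u.1 * t.2 = 0 ∨
      ((p : ℤ) * p') ≤ (R : ℤ) * |(t.1 : ℤ) * u.2 - u.1 * t.2|) :
    (F.card : ℝ) ≤ (1 + 2 * S * W * R / ((p : ℝ) * p')) * (2 * G) := by
  have hpr : (0 : ℝ) < p := by exact_mod_cast hp
  have hpr' : (0 : ℝ) < p' := by exact_mod_cast hp'
  have hn : (0 : ℝ) < (p : ℝ) * p' := mul_pos hpr hpr'
  obtain ⟨κ, hκ⟩ : ∃ κ : ℝ, κ = 2 * W * R / ((p : ℝ) * p') := ⟨_, rfl⟩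
  have hκ0 : 0 ≤ κ := by rw [hκ]; positivity
  apply fib_le F (fun t => ⌊(t.2 : ℝ) / t.1 * κ⌋₊)
  · have hsub : F.image (fun t : ℕ × ℕ => ⌊(t.2 : ℝ) / t.1 * κ⌋₊) ⊆
        Finset.range (⌊(S : ℝ) * κ⌋₊ + 1) := by
      intro b hb
      rw [Finset.mem_image] at hb
      obtain ⟨t, ht, rfl⟩ := hb
      rw [Finset.mem_range, Nat.lt_succ_iff]
      apply Nat.floor_le_floor
      apply mul_le_mul_of_nonneg_right _ hκ0
      have h1 := ll_slope hp' hsS hs hs' (hF t ht).1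
      have h0 : (0 : ℝ) < (t.1 : ℝ) := by exact_mod_cast (hF t ht).1.1
      rw [div_le_iff₀ h0]
      exact_mod_cast h1.le
    have h2 := Finset.card_le_card hsub
    rw [Finset.card_range] at h2
    have h3 : ((F.image (fun t : ℕ × ℕ => ⌊(t.2 : ℝ) / t.1 * κ⌋₊)).card : ℝ) ≤
        (⌊(S : ℝ) * κ⌋₊ : ℝ) + 1 := by exact_mod_cast h2
    have h4 : (⌊(S : ℝ) * κ⌋₊ : ℝ) ≤ (S : ℝ) * κ := Nat.floor_le (by positivity)
    have h5 : (S : ℝ) * κ = 2 * S * W * R / ((p : ℝ) * p') := by rw [hκ]; ring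
    rw [← h5]
    linarith
  · positivity
  · intro b hb
    apply card_le_of_inj _ (fun t => Nat.gcd t.1 t.2)
    · intro t ht u hu htu
      rw [Finset.mem_filter] at ht hu
      have hc : (t.1 : ℤ) * u.2 - u.1 * t.2 = 0 := by
        rcases hsep t ht.1 u hu.1 with h | h
        · exact h
        · exfalso
          have hPt : 0 < t.1 := (hF t ht.1).1.1
          have hPu : 0 < u.1 := (hF u hu.1).1.1
          have hPtr : (0 : ℝ) < (t.1 : ℝ) := by exact_mod_cast hPt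
          have hPur : (0 : ℝ) < (u.1 : ℝ) := by exact_mod_cast hPu
          have a1 : t.1 ^ 2 ≤ 2 * W := le_trans (Nat.le_mul_of_pos_left _ hs) (hF t ht.1).2
          have a2 : u.1 ^ 2 ≤ 2 * W := le_trans (Nat.le_mul_of_pos_left _ hs) (hF u hu.1).2
          have a1r : (t.1 : ℝ) ^ 2 ≤ 2 * W := by exact_mod_cast a1
          have a2r : (u.1 : ℝ) ^ 2 ≤ 2 * W := by exact_mod_cast a2
          have a3 : (t.1 : ℝ) * u.1 ≤ 2 * W := by nlinarith [sq_nonneg ((t.1 : ℝ) - u.1)]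
          have hr : (p : ℝ) * p' ≤ (R : ℝ) * |(t.1 : ℝ) * u.2 - u.1 * t.2| := by exact_mod_cast h
          have b1 : |(u.2 : ℝ) / u.1 * κ - (t.2 : ℝ) / t.1 * κ| =
              |(t.1 : ℝ) * u.2 - u.1 * t.2| / ((t.1 : ℝ) * u.1) * κ := by
            have c1 : (u.2 : ℝ) / u.1 * κ - (t.2 : ℝ) / t.1 * κ =
                ((t.1 : ℝ) * u.2 - u.1 * t.2) / ((t.1 : ℝ) * u.1) * κ := by
              field_simp
            rw [c1, abs_mul, abs_div, abs_of_nonneg hκ0,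
              abs_of_pos (mul_pos hPtr hPur)]
          have b2 : 1 ≤ |(t.1 : ℝ) * u.2 - u.1 * t.2| / ((t.1 : ℝ) * u.1) * κ := by
            rw [hκ, div_mul_div_comm, one_le_div (by positivity)]
            calc (t.1 : ℝ) * u.1 * ((p : ℝ) * p')
                ≤ (2 * W) * ((R : ℝ) * |(t.1 : ℝ) * u.2 - u.1 * t.2|) := by
                  apply mul_le_mul a3 hr hn.le (by positivity)
              _ = |(t.1 : ℝ) * u.2 - u.1 * t.2| * (2 * W * R) := by ring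
          have f1 := Nat.floor_le (show (0 : ℝ) ≤ (t.2 : ℝ) / t.1 * κ by positivity)
          have f2 := Nat.lt_floor_add_one ((t.2 : ℝ) / t.1 * κ)
          have f3 := Nat.floor_le (show (0 : ℝ) ≤ (u.2 : ℝ) / u.1 * κ by positivity)
          have f4 := Nat.lt_floor_add_one ((u.2 : ℝ) / u.1 * κ)
          have f5 : ⌊(t.2 : ℝ) / t.1 * κ⌋₊ = ⌊(u.2 : ℝ) / u.1 * κ⌋₊ := ht.2.trans hu.2.symm
          rw [f5] at f1 f2
          have f6 : |(u.2 : ℝ) / u.1 * κ - (t.2 : ℝ) / t.1 * κ| < 1 := by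
            rw [abs_lt]; constructor <;> linarith
          rw [b1] at f6
          linarith
      have hc2 : t.1 * u.2 = u.1 * t.2 := by
        have h8 : (t.1 : ℤ) * u.2 = u.1 * t.2 := by linarith
        exact_mod_cast h8
      have h9 := ll_eq (hF t ht.1).1.1 (hF u hu.1).1.1 hc2 htu
      exact Prod.ext h9.1 h9.2
    · have h1 := card_le_top (2 * G) ((F.filter (fun t : ℕ × ℕ => ⌊(t.2 : ℝ) / t.1 * κ⌋₊ = b)).image
        (fun t => Nat.gcd t.1 t.2)) (by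
          intro q hq
          rw [Finset.mem_image] at hq
          obtain ⟨t, ht, rfl⟩ := hq
          rw [Finset.mem_filter] at ht
          exact ll_gcd hp (hF t ht.1).1)
      push_cast at h1
      exact h1

/-- STEP B: `s`, `s'` fixed -/
theorem ll_classB (h2 : ST_LLA) {S G W p p' s s' : ℕ} (hs : 1 ≤ s) (hsS : s ≤ S) (hs' : 1 ≤ s')
    (hsS' : s' ≤ S) (hG : 1 ≤ G) (hp : 0 < p) (hp' : 0 < p') (hc : Nat.Coprime p p')
    (F : Finset (ℕ × ℕ)) (hF : ∀ t ∈ F, Rel p p' s s' G t.1 t.2 ∧ s * t.1 ^ 2 ≤ 2 * W) :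
    (F.card : ℝ) ≤ ((p * p').divisors.card : ℝ) *
      ((1 + 2 * S * W * ((64 * S ^ 8 * G ^ 5 : ℕ) : ℝ) / ((p : ℝ) * p')) * (2 * G)) := by
  rcases F.eq_empty_or_nonempty with rfl | ⟨t₁, ht₁⟩
  · rw [Finset.card_empty, Nat.cast_zero]; positivity
  · apply fib_le F (fun t => Int.gcd ((p : ℤ) * p') ((t₁.1 : ℤ) * t.2 - t.1 * t₁.2))
    · have hsub : F.image (fun t : ℕ × ℕ => Int.gcd ((p : ℤ) * p')
          ((t₁.1 : ℤ) * t.2 - t.1 * t₁.2)) ⊆ (p * p').divisors := by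
        intro b hb
        rw [Finset.mem_image] at hb
        obtain ⟨t, ht, rfl⟩ := hb
        rw [Nat.mem_divisors]
        refine ⟨?_, (Nat.mul_pos hp hp').ne'⟩
        have h3 := Int.gcd_dvd_left ((p : ℤ) * p') ((t₁.1 : ℤ) * t.2 - t.1 * t₁.2)
        exact_mod_cast h3
      exact_mod_cast Finset.card_le_card hsub
    · positivity
    · intro b hb
      apply ll_classA hsS hs hs' hp hp'
      · intro t ht
        exact hF t (Finset.mem_filter.1 ht).1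
      · intro t ht u hu
        rw [Finset.mem_filter] at ht hu
        have h3 := h2 S G p p' s s' t₁.1 t₁.2 t.1 t.2 u.1 u.2 hs hsS hs' hsS' hG hp hp' hc
          (hF t₁ ht₁).1 (hF t ht.1).1 (hF u hu.1).1 (ht.2.trans hu.2.symm)
        push_cast
        exact h3

/-- LL: lattice lemma -/
theorem st_LL (h1 : ST_DV) (h2 : ST_LLA) : ST_LL := by
  intro ε hε j
  obtain ⟨C0, hC0, hDV⟩ := h1 ε hε (j ^ 2 + 2 * j)
  refine ⟨256 * C0, by linarith, ?_⟩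
  intro N S G W p p' hN hS hG hp hp' hpj hpj' hc Z hZ
  have hSr : (1 : ℝ) ≤ S := by exact_mod_cast hS
  have hGr : (1 : ℝ) ≤ G := by exact_mod_cast hG
  have hNr : (1 : ℝ) ≤ N := by exact_mod_cast hN
  have hpr : (0 : ℝ) < p := by exact_mod_cast hp
  have hpr' : (0 : ℝ) < p' := by exact_mod_cast hp'
  have hn : (0 : ℝ) < (p : ℝ) * p' := mul_pos hpr hpr'
  -- the divisor bound
  have hn1 : p * p' ≤ (j ^ 2 + 2 * j) * N ^ (j ^ 2 + 2 * j) := by
    calc p * p' ≤ (j * N ^ j) * (j * N ^ j) := Nat.mul_le_mul hpj hpj'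
      _ = j ^ 2 * N ^ (2 * j) := by ring
      _ ≤ (j ^ 2 + 2 * j) * N ^ (j ^ 2 + 2 * j) := by
        apply Nat.mul_le_mul (by omega)
        exact Nat.pow_le_pow_right hN (by omega)
  have hD : ((p * p').divisors.card : ℝ) ≤ C0 * (N : ℝ) ^ ε :=
    hDV N hN (p * p') (Nat.mul_pos hp hp') hn1
  -- choice of the square parts
  have hch : ∀ z ∈ Z, ∃ s s' P Q : ℕ, 1 ≤ s ∧ s ≤ S ∧ 1 ≤ s' ∧ s' ≤ S ∧
      Rel p p' s s' G P Q ∧ p * z.1 + p' * z.2 = s * P ^ 2 ∧ s' * Q ^ 2 + p' * z.2 = p * z.1 ∧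
      s * P ^ 2 ≤ 2 * W := by
    intro z hz
    obtain ⟨z1, z2, z3, z4, ⟨s, P, s1, s2, s3⟩, ⟨s', Q, s1', s2', s3'⟩⟩ := hZ z hz
    have k1 : 0 < p' * z.2 := Nat.mul_pos hp' z1
    have k2 : 0 < p * z.1 := by omega
    have k3 : 0 < z.1 := Nat.pos_of_mul_pos_left k2
    have k4 : 0 < P := by
      rcases Nat.eq_zero_or_pos P with h | h
      · rw [h] at s3; simp at s3; omega
      · exact h
    have k5 : 0 < Q := by
      rcases Nat.eq_zero_or_pos Q with h | h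
      · rw [h] at s3'; simp at s3'; omega
      · exact h
    exact ⟨s, s', P, Q, s1, s2, s1', s2', ⟨k4, k5, z.1, z.2, k3, z1, s3.symm, by omega, z4⟩, s3,
      by omega, by omega⟩
  choose! fs fs' fP fQ hf using hch
  have hmain : (Z.card : ℝ) ≤ ((S : ℝ) * S) * (((p * p').divisors.card : ℝ) *
      ((1 + 2 * S * W * ((64 * S ^ 8 * G ^ 5 : ℕ) : ℝ) / ((p : ℝ) * p')) * (2 * G))) := by
    have hsub : Z.image (fun z => (fs z, fs' z)) ⊆ Finset.Icc 1 S ×ˢ Finset.Icc 1 S := by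
      intro b hb
      rw [Finset.mem_image] at hb
      obtain ⟨z, hz, rfl⟩ := hb
      have h3 := hf z hz
      rw [Finset.mem_product, Finset.mem_Icc, Finset.mem_Icc]
      exact ⟨⟨h3.1, h3.2.1⟩, h3.2.2.1, h3.2.2.2.1⟩
    apply fib_le Z (fun z => (fs z, fs' z))
    · have h3 := Finset.card_le_card hsub
      rw [Finset.card_product, Nat.card_Icc, Nat.add_sub_cancel] at h3
      exact_mod_cast h3
    · positivity
    · intro b hb
      have hb2 := hsub hb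
      rw [Finset.mem_product, Finset.mem_Icc, Finset.mem_Icc] at hb2
      apply card_le_of_inj _ (fun z => (fP z, fQ z))
      · intro z hz w hw hzw
        rw [Finset.mem_filter] at hz hw
        have e1 := hf z hz.1
        have e2 := hf w hw.1
        have e3 : (fs z, fs' z) = (fs w, fs' w) := hz.2.trans hw.2.symm
        rw [Prod.mk.injEq] at e3 hzw
        have u1 := e1.2.2.2.2.2.1
        have u2 := e1.2.2.2.2.2.2.1
        have v1 := e2.2.2.2.2.2.1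
        have v2 := e2.2.2.2.2.2.2.1
        rw [e3.1, hzw.1] at u1
        rw [e3.2, hzw.2] at u2
        have w1 : p * z.1 = p * w.1 := by omega
        have w2 : p' * z.2 = p' * w.2 := by omega
        exact Prod.ext (Nat.eq_of_mul_eq_mul_left hp w1) (Nat.eq_of_mul_eq_mul_left hp' w2)
      · apply ll_classB h2 hb2.1.1 hb2.1.2 hb2.2.1 hb2.2.2 hG hp hp' hc
        intro t ht
        rw [Finset.mem_image] at ht
        obtain ⟨z, hz, rfl⟩ := ht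
        rw [Finset.mem_filter] at hz
        have e1 := hf z hz.1
        have e3 : fs z = b.1 := congrArg Prod.fst hz.2
        have e4 : fs' z = b.2 := congrArg Prod.snd hz.2
        rw [← e3, ← e4]
        exact ⟨e1.2.2.2.2.1, e1.2.2.2.2.2.2.2⟩
  refine le_trans hmain ?_
  have hw : (0 : ℝ) ≤ (W : ℝ) / ((p : ℝ) * p') := by positivity
  obtain ⟨w, hw1⟩ : ∃ w : ℝ, w = (W : ℝ) / ((p : ℝ) * p') := ⟨_, rfl⟩
  rw [← hw1] at hw ⊢
  have hE : 0 ≤ C0 * (N : ℝ) ^ ε := by positivity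
  have q1 : 2 * (S : ℝ) * W * ((64 * S ^ 8 * G ^ 5 : ℕ) : ℝ) / ((p : ℝ) * p') =
      128 * (S : ℝ) ^ 9 * (G : ℝ) ^ 5 * w := by
    rw [hw1]; push_cast; ring
  rw [q1]
  have q2 : (1 : ℝ) ≤ (S : ℝ) ^ 9 * (G : ℝ) ^ 5 :=
    one_le_mul_of_one_le_of_one_le (one_le_pow₀ hSr) (one_le_pow₀ hGr)
  have q3 : 1 + 128 * (S : ℝ) ^ 9 * (G : ℝ) ^ 5 * w ≤ 128 * ((S : ℝ) ^ 9 * (G : ℝ) ^ 5) * (1 + w) := by
    nlinarith
  calc ((S : ℝ) * S) * (((p * p').divisors.card : ℝ) *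
        ((1 + 128 * (S : ℝ) ^ 9 * (G : ℝ) ^ 5 * w) * (2 * G)))
      ≤ ((S : ℝ) * S) * ((C0 * (N : ℝ) ^ ε) *
        ((128 * ((S : ℝ) ^ 9 * (G : ℝ) ^ 5) * (1 + w)) * (2 * G))) := by
        gcongr
    _ = 256 * C0 * (N : ℝ) ^ ε * ((S : ℝ) ^ 11 * (G : ℝ) ^ 6) * (1 + w) := by ring
    _ ≤ 256 * C0 * (N : ℝ) ^ ε * ((S : ℝ) ^ 11 * (G : ℝ) ^ 11) * (1 + w) := by
        gcongr
        norm_num
    _ = 256 * C0 * (N : ℝ) ^ ε * ((S : ℝ) * G) ^ 11 * (1 + w) := by rw [mul_pow]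

end Pool.Agent.Helper89.TT
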